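import Pool.Agent.T2H52.AW.Gen
import Pool.Agent.Y885.WI2

set_option autoImplicit false

/-! Goldbach pairs in short windows, for random elements of automatic sets. -/

namespace Pool.Agent.T2H52.AW
open Finset
open Pool.Agent.Y885 (TLaw)

variable {σ : Type}

/-- the law without a multiplier -/
lemma Law.law1 {b : ℕ} {M : DFA ℕ σ} {μ : ℤ} {Bc B e₀ : ℕ} {Ω : ℕ → Finset ℕ} {p : ℕ → ℕ → ℝ}
    (hL : Law b M μ Bc B e₀ Ω p) (f V : ℕ) : ∃ c N₀ : ℕ, ∀ N : ℕ, N₀ ≤ N → ∀ cc : ℤ,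
    TLaw B 15 c V (Nat.log B N + 1 + e₀ + f) (Ω N) (p N) (fun v : ℕ => cc + μ * v) := by
  obtain ⟨c, N₀, h⟩ := hL.law f V
  have hB2 := hL.two
  refine ⟨c, N₀ + B ^ 3, fun N hN cc => ?_⟩
  have h1 := h N (by omega) cc f 1 le_rfl (Nat.one_le_pow _ _ (by omega)) (by
    have hn : 3 ≤ Nat.log B N := by
      have hp : 0 < B ^ 3 := by positivity
      exact (Nat.le_log_iff_pow_le (by omega) (by omega)).2 (by omega)
    have h3 : (3 : ℝ) ≤ ((Nat.log B N + 1 : ℕ) : ℝ) := by exact_mod_cast (by omega : 3 ≤ Nat.log B N + 1)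
    have hlog : 1 ≤ Real.log ((Nat.log B N + 1 : ℕ) : ℝ) := by
      rw [Real.le_log_iff_exp_le (by linarith)]
      have := Real.exp_one_lt_d9
      linarith
    exact le_mul_of_one_le_right (Nat.cast_nonneg f) hlog)
  simpa using h1

open Classical in
/-- the windows for almost all elements of an automatic set -/
theorem aut_windows [Fintype σ] (b : ℕ) (hb : 2 ≤ b) (M : DFA ℕ σ)
    (hS : ∀ k : ℕ, ∃ᶠ N : ℕ in Filter.atTop, Real.log N ^ k < (((range N).filter fun v => Nat.digits b v ∈ M.accepts).card : ℝ))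
    (μ : ℤ) (hμ : μ ≠ 0) (Bc A U m₀ : ℕ) (ε : ℝ) (hε : 0 < ε) (P : ℕ → Prop)
    (hP : ∀ m : ℕ, m₀ ≤ m → 2 ∣ m → Pool.Agent.W93.PG.WinP ε A m → P m) :
    ∃ N₀ : ℕ, ∀ N : ℕ, N₀ ≤ N → ∀ cc : ℤ, |cc| ≤ Bc * N →
    (((range N).filter (fun v : ℕ => Nat.digits b v ∈ M.accepts ∧
        (0 < cc + μ * v ∧ 2 ∣ cc + μ * v ∧ ¬ P (cc + μ * v).toNat))).card : ℝ) ≤
      (((range N).filter fun v => Nat.digits b v ∈ M.accepts).card : ℝ) / Real.log N ^ U := by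
  obtain ⟨B, e₀, Ω, p, hL⟩ := exists_law b hb M hS μ hμ Bc
  have hB2 := hL.two
  obtain ⟨c₁, n1, h1⟩ := hL.law1 2 ((U + 1) + 3)
  obtain ⟨V, hV⟩ := Pool.Agent.Y885.tl_windows B hB2 15 c₁ A (U + 1) m₀ (by norm_num) ε hε P hP
  obtain ⟨c₂, n2, h2⟩ := hL.law1 2 V
  obtain ⟨K₀, h3⟩ := hV c₂
  obtain ⟨n4, h4⟩ := hL.tr U
  obtain ⟨n5, h5⟩ := hL.base
  refine ⟨n1 + n2 + n4 + n5 + B ^ K₀, fun N hN cc hcc => ?_⟩
  have hK : K₀ ≤ Nat.log B N := by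
    have hp : 0 < B ^ K₀ := by positivity
    exact (Nat.le_log_iff_pow_le (by omega) (by omega)).2 (by omega)
  obtain ⟨E, hE⟩ : ∃ E : ℕ → Prop, E = fun v : ℕ => 0 < cc + μ * v ∧ 2 ∣ cc + μ * v ∧ ¬ P (cc + μ * v).toNat := ⟨_, rfl⟩
  have key : ∑ v ∈ Ω N, (if E v then p N v else 0) ≤ 1 / ((Nat.log B N + 1 + e₀ : ℕ) : ℝ) ^ (U + 1) := by
    have hlaw1 := h1 N (by omega) cc
    have hlaw2 := h2 N (by omega) cc
    have hbd := (h5 N (by omega)).2 cc hcc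
    exact h3 (Nat.log B N + 1 + e₀) (by omega) ℕ (Ω N) (p N) (fun v : ℕ => cc + μ * v) hlaw1 hlaw2 hbd E _
      (fun v _ hv => by rw [hE] at hv; exact hv)
  have h6 := h4 N (by omega) E (fun _ => Classical.propDecidable _) key
  refine le_trans (le_of_eq ?_) h6
  rw [hE]
  congr!

end Pool.Agent.T2H52.AW
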